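import Mathlib

namespace Pool.Agent.Work.MP_2553b2_an

/-- One block of fifteen steps of the perturbed max-plus recursion. -/
theorem block (u : ℕ → ℝ) (L T D : ℝ)
    (hu : ∀ n, |u (n + 3) - (u (n + 2) - max (u (n + 1)) (u n))| ≤ L)
    (hL : 0 ≤ L) (hLT : 100 * L ≤ T) (hDT : 100 * D ≤ 7 * T)
    (h0 : |u 0 - 5 * T| ≤ D) (h2 : |u 2 + 4 * T| ≤ D) (hs : |u 0 - u 1 + u 2| ≤ L) :
    |u 15 - 5 * (3 * T)| ≤ 3 * D + 14 * L ∧ |u 17 + 4 * (3 * T)| ≤ 3 * D + 14 * L ∧
      |u 15 - u 16 + u 17| ≤ L := by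
  rw [abs_le] at h0 h2 hs
  obtain ⟨h0a, h0b⟩ := h0
  obtain ⟨h2a, h2b⟩ := h2
  obtain ⟨hsa, hsb⟩ := hs
  have e0 := hu 0
  rw [max_eq_right (by norm_num; linarith), abs_le] at e0
  norm_num at e0
  obtain ⟨e0a, e0b⟩ := e0
  have e1 := hu 1
  rw [max_eq_right (by norm_num; linarith), abs_le] at e1
  norm_num at e1
  obtain ⟨e1a, e1b⟩ := e1
  have e2 := hu 2
  rw [max_eq_right (by norm_num; linarith), abs_le] at e2
  norm_num at e2
  obtain ⟨e2a, e2b⟩ := e2
  have e3 := hu 3
  rw [max_eq_right (by norm_num; linarith), abs_le] at e3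
  norm_num at e3
  obtain ⟨e3a, e3b⟩ := e3
  have e4 := hu 4
  rw [max_eq_left (by norm_num; linarith), abs_le] at e4
  norm_num at e4
  obtain ⟨e4a, e4b⟩ := e4
  have e5 := hu 5
  rw [max_eq_left (by norm_num; linarith), abs_le] at e5
  norm_num at e5
  obtain ⟨e5a, e5b⟩ := e5
  have e6 := hu 6
  rw [max_eq_left (by norm_num; linarith), abs_le] at e6
  norm_num at e6
  obtain ⟨e6a, e6b⟩ := e6
  have e7 := hu 7
  rw [max_eq_right (by norm_num; linarith), abs_le] at e7
  norm_num at e7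
  obtain ⟨e7a, e7b⟩ := e7
  have e8 := hu 8
  rw [max_eq_right (by norm_num; linarith), abs_le] at e8
  norm_num at e8
  obtain ⟨e8a, e8b⟩ := e8
  have e9 := hu 9
  rw [max_eq_right (by norm_num; linarith), abs_le] at e9
  norm_num at e9
  obtain ⟨e9a, e9b⟩ := e9
  have e10 := hu 10
  rw [max_eq_right (by norm_num; linarith), abs_le] at e10
  norm_num at e10
  obtain ⟨e10a, e10b⟩ := e10
  have e11 := hu 11
  rw [max_eq_left (by norm_num; linarith), abs_le] at e11
  norm_num at e11
  obtain ⟨e11a, e11b⟩ := e11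
  have e12 := hu 12
  rw [max_eq_left (by norm_num; linarith), abs_le] at e12
  norm_num at e12
  obtain ⟨e12a, e12b⟩ := e12
  have e13 := hu 13
  rw [max_eq_left (by norm_num; linarith), abs_le] at e13
  norm_num at e13
  obtain ⟨e13a, e13b⟩ := e13
  have e14 := hu 14
  rw [max_eq_left (by norm_num; linarith), abs_le] at e14
  norm_num at e14
  obtain ⟨e14a, e14b⟩ := e14
  refine ⟨?_, ?_, ?_⟩
  · rw [abs_le]; constructor <;> linarith
  · rw [abs_le]; constructor <;> linarith
  · rw [abs_le]; constructor <;> linarith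

/-- Iterating the blocks. -/
theorem blocks (u : ℕ → ℝ) (L T : ℝ)
    (hu : ∀ n, |u (n + 3) - (u (n + 2) - max (u (n + 1)) (u n))| ≤ L)
    (hL : 0 ≤ L) (hLT : 100 * L ≤ T)
    (h0 : u 0 = 5 * T) (h1 : u 1 = T) (h2 : u 2 = -4 * T) (k : ℕ) :
    |u (15 * k) - 5 * (3 ^ k * T)| ≤ (3 ^ k - 1) * (7 * L) ∧
      |u (15 * k + 2) + 4 * (3 ^ k * T)| ≤ (3 ^ k - 1) * (7 * L) ∧
      |u (15 * k) - u (15 * k + 1) + u (15 * k + 2)| ≤ L := by
  induction k with
  | zero =>
    refine ⟨?_, ?_, ?_⟩
    · simp [h0]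
    · simp [h2]
    · simp only [Nat.mul_zero, Nat.zero_add, h0, h1, h2]
      have : 5 * T - T + -4 * T = 0 := by ring
      rw [this, abs_zero]
      exact hL
  | succ k ih =>
    obtain ⟨i1, i2, i3⟩ := ih
    have h3 : (1 : ℝ) ≤ 3 ^ k := one_le_pow₀ (by norm_num)
    have hT : 0 ≤ T := by linarith
    have hb := block (fun n => u (15 * k + n)) L (3 ^ k * T) ((3 ^ k - 1) * (7 * L))
      (fun n => hu (15 * k + n)) hL (by nlinarith) (by nlinarith) i1 i2 i3
    obtain ⟨b1, b2, b3⟩ := hb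
    have e1 : 15 * (k + 1) = 15 * k + 15 := by ring
    rw [e1, pow_succ, show 15 * k + 15 + 2 = 15 * k + 17 from rfl,
      show 15 * k + 15 + 1 = 15 * k + 16 from rfl]
    refine ⟨?_, ?_, b3⟩
    · calc |u (15 * k + 15) - 5 * (3 ^ k * 3 * T)| = |u (15 * k + 15) - 5 * (3 * (3 ^ k * T))| := by
            ring_nf
        _ ≤ 3 * ((3 ^ k - 1) * (7 * L)) + 14 * L := b1
        _ = (3 ^ k * 3 - 1) * (7 * L) := by ring
    · calc |u (15 * k + 17) + 4 * (3 ^ k * 3 * T)| = |u (15 * k + 17) + 4 * (3 * (3 ^ k * T))| := by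
            ring_nf
        _ ≤ 3 * ((3 ^ k - 1) * (7 * L)) + 14 * L := b2
        _ = (3 ^ k * 3 - 1) * (7 * L) := by ring

/-- `log (C e^b + e^a)` is `max b a` up to a bounded error. -/
theorem log_sub_max (C : ℝ) (hC : 0 < C) (a b : ℝ) :
    |Real.log (C * Real.exp b + Real.exp a) - max b a| ≤ Real.log (C + 1) + |Real.log C| := by
  have hC1 : 0 < Real.log (C + 1) := Real.log_pos (by linarith)
  have hb := Real.exp_pos b
  have ha := Real.exp_pos a
  have hpos : 0 < C * Real.exp b + Real.exp a := by positivity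
  rcases le_total a b with hab | hab
  · rw [max_eq_left hab]
    have hexp : Real.exp a ≤ Real.exp b := Real.exp_le_exp.mpr hab
    have up : Real.log (C * Real.exp b + Real.exp a) ≤ Real.log ((C + 1) * Real.exp b) :=
      Real.log_le_log hpos (by nlinarith)
    have lo : Real.log (C * Real.exp b) ≤ Real.log (C * Real.exp b + Real.exp a) :=
      Real.log_le_log (by positivity) (by linarith)
    rw [Real.log_mul (by positivity) (by positivity), Real.log_exp] at up lo
    rw [abs_le]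
    constructor
    · have := neg_abs_le (Real.log C)
      linarith
    · have := abs_nonneg (Real.log C)
      linarith
  · rw [max_eq_right hab]
    have hexp : Real.exp b ≤ Real.exp a := Real.exp_le_exp.mpr hab
    have up : Real.log (C * Real.exp b + Real.exp a) ≤ Real.log ((C + 1) * Real.exp a) :=
      Real.log_le_log hpos (by nlinarith)
    have lo : Real.log (Real.exp a) ≤ Real.log (C * Real.exp b + Real.exp a) :=
      Real.log_le_log (by positivity) (by nlinarith)
    rw [Real.log_exp] at lo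
    rw [Real.log_mul (by positivity) (by positivity), Real.log_exp] at up
    rw [abs_le]
    have := abs_nonneg (Real.log C)
    constructor <;> linarith

/-- The state `(x_n, x_{n+1}, x_{n+2})` of the recursion. -/
noncomputable def state (C a b c : ℝ) : ℕ → ℝ × ℝ × ℝ
  | 0 => (a, b, c)
  | n + 1 => ((state C a b c n).2.1, (state C a b c n).2.2,
      (state C a b c n).2.2 / (C * (state C a b c n).2.1 + (state C a b c n).1))

/-- The solution with initial values `a, b, c`. -/
noncomputable def sol (C a b c : ℝ) (n : ℕ) : ℝ := (state C a b c n).1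

theorem sol_rec (C a b c : ℝ) (n : ℕ) :
    sol C a b c (n + 3) = sol C a b c (n + 2) / (C * sol C a b c (n + 1) + sol C a b c n) := rfl

theorem sol_pos {C a b c : ℝ} (hC : 0 < C) (ha : 0 < a) (hb : 0 < b) (hc : 0 < c) (n : ℕ) :
    0 < sol C a b c n := by
  have : 0 < (state C a b c n).1 ∧ 0 < (state C a b c n).2.1 ∧ 0 < (state C a b c n).2.2 := by
    induction n with
    | zero => exact ⟨ha, hb, hc⟩
    | succ n ih =>
      obtain ⟨i1, i2, i3⟩ := ih
      exact ⟨i2, i3, by simp only [state]; positivity⟩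
  exact this.1

theorem main (C : ℝ) (hC : 0 < C) : ∃ x : ℕ → ℝ, (∀ n, 0 < x n) ∧
    (∀ n, x (n + 3) = x (n + 2) / (C * x (n + 1) + x n)) ∧ ¬ BddAbove (Set.range x) := by
  set L := Real.log (C + 1) + |Real.log C| with hL
  have hLpos : 0 < L := by
    have : 0 < Real.log (C + 1) := Real.log_pos (by linarith)
    have := abs_nonneg (Real.log C)
    linarith
  set T := 100 * L with hT
  set x := sol C (Real.exp (5 * T)) (Real.exp T) (Real.exp (-4 * T)) with hx
  have hpos : ∀ n, 0 < x n :=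
    sol_pos hC (Real.exp_pos _) (Real.exp_pos _) (Real.exp_pos _)
  have hrec : ∀ n, x (n + 3) = x (n + 2) / (C * x (n + 1) + x n) := sol_rec _ _ _ _
  refine ⟨x, hpos, hrec, ?_⟩
  have hu : ∀ n, |Real.log (x (n + 3)) - (Real.log (x (n + 2)) -
      max (Real.log (x (n + 1))) (Real.log (x n)))| ≤ L := by
    intro n
    have h1 := hpos n
    have h2 := hpos (n + 1)
    have h3 := hpos (n + 2)
    have h4 : 0 < C * x (n + 1) + x n := by positivity
    rw [hrec n, Real.log_div h3.ne' h4.ne']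
    have h5 := log_sub_max C hC (Real.log (x n)) (Real.log (x (n + 1)))
    rw [Real.exp_log h1, Real.exp_log h2] at h5
    rw [← abs_neg]
    calc _ = |Real.log (C * x (n + 1) + x n) - max (Real.log (x (n + 1))) (Real.log (x n))| := by
          congr 1; ring
      _ ≤ L := h5
  have hb := blocks (fun n => Real.log (x n)) L T hu hLpos.le (by rw [hT])
    (Real.log_exp _) (Real.log_exp _) (Real.log_exp _)
  rintro ⟨M, hM⟩
  have hM' : ∀ n, x n ≤ M := fun n => hM ⟨n, rfl⟩
  have hMpos : 0 < M := lt_of_lt_of_le (hpos 0) (hM' 0)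
  have hTpos : 0 < T := by positivity
  obtain ⟨k, hk⟩ := pow_unbounded_of_one_lt (Real.log M / T) (by norm_num : (1 : ℝ) < 3)
  have h1 := (abs_le.mp (hb k).1).1
  have h3 : (1 : ℝ) ≤ 3 ^ k := one_le_pow₀ (by norm_num)
  have h2 : Real.log (x (15 * k)) ≤ Real.log M := Real.log_le_log (hpos _) (hM' _)
  rw [div_lt_iff₀ hTpos] at hk
  nlinarith

end Pool.Agent.Work.MP_2553b2_an
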